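import Pool.Agent.V11172.PdG

/-!
# Partitions with distinct even parts modulo 192

The congruences of Q1 hold.  More generally `192 ∣ ped(9 N + 7)` whenever `24 N + 19` is not a value
of the form `x^2 + 18 z^2`.
-/

set_option autoImplicit false

namespace Pool.Agent.Results.MP_fab899_nt.PedModOneNinetyTwo

/-- `ped(n)`: the number of partitions of `n` in which each even part occurs at most once -/
def ped (n : ℕ) : ℕ :=
  ((Finset.univ : Finset (Nat.Partition n)).filter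
    (fun p => ∀ i ∈ p.parts, Even i → p.parts.count i ≤ 1)).card

theorem sq_mod {t : ℕ} (ht : Nat.Coprime t 6) : ∃ w, t ^ 2 = 24 * w + 1 := by
  have h2 : t % 2 = 1 := by
    rcases Nat.mod_two_eq_zero_or_one t with h | h
    · exfalso
      have h1 : 2 ∣ Nat.gcd t 6 := Nat.dvd_gcd (Nat.dvd_of_mod_eq_zero h) (by norm_num)
      rw [ht] at h1
      norm_num at h1
    · exact h
  have h3 : t % 3 ≠ 0 := by
    intro h
    have h1 : 3 ∣ Nat.gcd t 6 := Nat.dvd_gcd (Nat.dvd_of_mod_eq_zero h) (by norm_num)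
    rw [ht] at h1
    norm_num at h1
  have h4 : t ^ 2 % 24 = 1 := by
    have h5 : t % 24 = 1 ∨ t % 24 = 5 ∨ t % 24 = 7 ∨ t % 24 = 11 ∨ t % 24 = 13 ∨ t % 24 = 17 ∨
        t % 24 = 19 ∨ t % 24 = 23 := by omega
    rcases h5 with h | h | h | h | h | h | h | h <;> simp [pow_two, Nat.mul_mod, h]
  exact ⟨t ^ 2 / 24, by omega⟩

theorem result :
    (∀ (p : ℕ) [Fact p.Prime], 5 ≤ p → legendreSym p (-2) = -1 →
      ∀ t : ℕ, 0 < t → Nat.Coprime t 6 → p ∣ t → ∀ n j : ℕ, 1 ≤ j → j ≤ p - 1 →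
        192 ∣ ped (9 * t ^ 2 * n + 9 * t ^ 2 * j / p + (57 * t ^ 2 - 1) / 8)) ∧
    (∀ N : ℕ, (∀ x z : ℤ, x ^ 2 + 18 * z ^ 2 ≠ 24 * N + 19) → 192 ∣ ped (9 * N + 7)) := by
  have h2 : ∀ N : ℕ, (∀ x z : ℤ, x ^ 2 + 18 * z ^ 2 ≠ 24 * N + 19) → 192 ∣ ped (9 * N + 7) :=
    fun N h => Pool.Agent.V11172.Pd.ped_192 h
  refine ⟨?_, h2⟩
  intro p hp hp5 hleg t ht hcop hpt n j hj1 hj2
  obtain ⟨w, hw⟩ := sq_mod hcop
  obtain ⟨s, rfl⟩ := hpt
  have hs : 0 < s := Nat.pos_of_mul_pos_left ht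
  have e1 : 9 * (p * s) ^ 2 * j / p = 9 * p * s ^ 2 * j := by
    rw [show 9 * (p * s) ^ 2 * j = p * (9 * p * s ^ 2 * j) by ring,
      Nat.mul_div_cancel_left _ hp.out.pos]
  have e2 : (57 * (p * s) ^ 2 - 1) / 8 = 171 * w + 7 := by
    rw [hw]; omega
  have e3 : 9 * (p * s) ^ 2 * n + 9 * (p * s) ^ 2 * j / p + (57 * (p * s) ^ 2 - 1) / 8 =
      9 * ((p * s) ^ 2 * n + p * s ^ 2 * j + 19 * w) + 7 := by
    rw [e1, e2]; ring
  rw [e3]
  apply h2
  intro x z hxz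
  have hu : ¬ (p : ℤ) ∣ (p * (24 * n + 19) + 24 * j : ℤ) := by
    intro h
    have h1 : (p : ℤ) ∣ 24 * (j : ℤ) := (dvd_add_right (dvd_mul_right _ _)).1 h
    have h2 : p ∣ 24 * j := by exact_mod_cast h1
    rcases (Nat.Prime.dvd_mul hp.out).1 h2 with h3 | h3
    · have h4 : p ∣ 2 ^ 3 * 3 := by simpa using h3
      rcases (Nat.Prime.dvd_mul hp.out).1 h4 with h5 | h5
      · have := Nat.le_of_dvd (by norm_num) (hp.out.dvd_of_dvd_pow h5)
        omega
      · have := Nat.le_of_dvd (by norm_num) h5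
        omega
    · have := Nat.le_of_dvd (by omega) h3
      omega
  refine Pool.Agent.V11172.Pd.no_form hleg hu s hs x (3 * z) ?_
  have hw' : ((p : ℤ) * s) ^ 2 = 24 * w + 1 := by exact_mod_cast hw
  push_cast at hxz
  linear_combination hxz - 19 * hw'

end Pool.Agent.Results.MP_fab899_nt.PedModOneNinetyTwo
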